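import Pool.Agent.ANG.Gr
import Pool.Agent.ZUK.Cm

/-!
# The angle criterion for property (T) excludes actions on the interval (MP_9d3768_al, Q1)

Let `G` act properly, with finitely many orbits, on a connected chamber system. If the rank two
residues are finite and the cosines `ε i j` of their angles form a positive definite matrix
`(1, - ε i j)` (the criterion of Dymara-Januszkiewicz, Ershov-Jaikin-Zapirin and Kassabov for
property (T)), then `G`, its finite index subgroups, their quotients and all groups commensurable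
with these act trivially on every linearly ordered set and on `[0,1]`. No condition is put on the
residues of rank three, which may be infinite. The general form uses finite residues of arbitrary
rank. The new tool is a cubic Poincaré inequality, valid for every finite weighted graph
(`ANG.local_ineq`).
-/

set_option autoImplicit false

universe u v w z s t

namespace Pool.Agent.Results.MP_9d3768_al.AngleCriterion

/-- `V` is the set of chambers of a connected chamber system with set of types `I`: `rel i` is
`i`-adjacency. `G` acts on it by automorphisms, properly and with finitely many orbits of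
chambers. -/
structure ChamberSystem (G : Type u) {V : Type v} {I : Type s} [Group G] [MulAction G V]
    (rel : I → V → V → Prop) : Prop where
  equivalence : ∀ i, Equivalence (rel i)
  invariant : ∀ (i : I) (g : G) (c d : V), rel i c d → rel i (g • c) (g • d)
  finite_classes : ∀ (i : I) (c : V), {d | rel i c d}.Finite
  connected : ∀ c d, Relation.ReflTransGen (fun a b => ∃ i, rel i a b) c d
  finitely_many_orbits : Finite (MulAction.orbitRel.Quotient G V)
  finite_stabilizers : ∀ c : V, Finite (MulAction.stabilizer G c)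

/-- The residue of type `J` of the chamber `c`. -/
def residue {V : Type v} {I : Type s} (rel : I → V → V → Prop) (J : Set I) (c : V) : Set V :=
  {d | Relation.ReflTransGen (fun a b => ∃ i ∈ J, rel i a b) c d}

/-- The average of `f` over the class of `c` under `i`-adjacency. -/
noncomputable def average {V : Type v} {I : Type s} (rel : I → V → V → Prop) (i : I) (f : V → ℝ)
    (c : V) : ℝ :=
  (∑ᶠ d ∈ {d | rel i c d}, f d) / ({d | rel i c d}.ncard : ℝ)

/-- On each residue of type `{i, j}`, functions `f` constant on the `i`-classes and `g` constant on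
the `j`-classes, both of mean zero, satisfy `2 ⟨f, g⟩ ≤ ε (‖f‖² + ‖g‖²)`, that is, the cosine of
their angle is at most `ε`. -/
def ResidueAngle {V : Type v} {I : Type s} (rel : I → V → V → Prop) (i j : I) (ε : ℝ) : Prop :=
  ∀ (c : V) (f g : V → ℝ), (∀ x y, rel i x y → f x = f y) → (∀ x y, rel j x y → g x = g y) →
    ∑ᶠ d ∈ residue rel {i, j} c, f d = 0 → ∑ᶠ d ∈ residue rel {i, j} c, g d = 0 →
    2 * ∑ᶠ d ∈ residue rel {i, j} c, f d * g d
      ≤ ε * (∑ᶠ d ∈ residue rel {i, j} c, f d ^ 2 + ∑ᶠ d ∈ residue rel {i, j} c, g d ^ 2)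

/-- The same for subgroups `A`, `B` of a group and the finite group they generate, with functions
invariant under right multiplication. -/
def SubgroupAngle {G : Type u} [Group G] (A B : Subgroup G) (ε : ℝ) : Prop :=
  ∀ f g : G → ℝ, (∀ h, ∀ x ∈ A, f (h * x) = f h) → (∀ h, ∀ x ∈ B, g (h * x) = g h) →
    ∑ᶠ h ∈ (A ⊔ B : Subgroup G), f h = 0 → ∑ᶠ h ∈ (A ⊔ B : Subgroup G), g h = 0 →
    2 * ∑ᶠ h ∈ (A ⊔ B : Subgroup G), f h * g h
      ≤ ε * (∑ᶠ h ∈ (A ⊔ B : Subgroup G), f h ^ 2 + ∑ᶠ h ∈ (A ⊔ B : Subgroup G), g h ^ 2)

open Classical in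
/-- `ε` is symmetric and nonnegative, and the matrix with diagonal entries `1` and off-diagonal
entries `- ε i j` is positive definite. -/
structure PositiveDefinite {I : Type s} [Fintype I] (ε : I → I → ℝ) : Prop where
  symm : ∀ i j, ε i j = ε j i
  nonneg : ∀ i j, 0 ≤ ε i j
  pos : ∀ x : I → ℝ, x ≠ 0 →
    ∑ i, ∑ j, (if i = j then 0 else ε i j * x i * x j) < ∑ i, x i ^ 2

/-- Data for the general criterion: `al i > 0`; for each `k` in a finite set a type
`J_k = {i | b k i ≠ 0}` with finite residues, on which the Laplacian `∑ b k i (1 - average_i)` has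
spectral gap at least `lam k > 0`; the sums of `b k i * b k j` over `k` are `al i * al j` for
`i ≠ j`, and the sums of `b k i * (b k i - lam k)` over `k` are less than `(al i)²`. -/
structure LocalData {V : Type v} {I : Type s} {T : Type t} [Fintype I] [Fintype T]
    (rel : I → V → V → Prop) (al : I → ℝ) (b : T → I → ℝ) (lam : T → ℝ) : Prop where
  al_pos : ∀ i, 0 < al i
  b_nonneg : ∀ k i, 0 ≤ b k i
  lam_pos : ∀ k, 0 < lam k
  finite_residues : ∀ k c, (residue rel {i | b k i ≠ 0} c).Finite
  gap : ∀ (k : T) (c : V) (f : V → ℝ), ∑ᶠ d ∈ residue rel {i | b k i ≠ 0} c, f d = 0 →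
    lam k * ∑ᶠ d ∈ residue rel {i | b k i ≠ 0} c, f d ^ 2
      ≤ ∑ i, b k i * ∑ᶠ d ∈ residue rel {i | b k i ≠ 0} c, (f d - average rel i f d) ^ 2
  cross : ∀ i j, i ≠ j → ∑ k, b k i * b k j = al i * al j
  diag : ∀ i, ∑ k, b k i * (b k i - lam k) < al i ^ 2

/-- Every action of `Γ` on a linearly ordered set by order automorphisms is trivial, and every
homomorphism from `Γ` to the group of increasing homeomorphisms of `[0,1]` is trivial. -/
def ActsTrivially (Γ : Type z) [Group Γ] : Prop :=
  (∀ (X : Type w) [LinearOrder X] (ψ : Γ →* (X ≃o X)), ψ = 1) ∧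
  (∀ ψ : Γ →* (Set.Icc (0 : ℝ) 1 ≃ₜ Set.Icc (0 : ℝ) 1), (∀ g, Monotone (ψ g)) → ψ = 1)

/-- Every group `Λ` having a finite index subgroup which is a quotient of a finite index subgroup
of `G` acts trivially on linear orders and on the interval. -/
def Rigid (G : Type u) [Group G] : Prop :=
  ∀ (Λ : Type z) [Group Λ] (K : Subgroup G) (N : Subgroup Λ), K.FiniteIndex → N.FiniteIndex →
    ∀ e : K →* N, Function.Surjective e → ActsTrivially.{w, z} Λ

theorem rigid_of {G : Type u} [Group G]
    (h : ∀ (K : Subgroup G), K.FiniteIndex → ∀ (X : Type w) [LinearOrder X] (ψ : K →* (X ≃o X)),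
      ψ = 1)
    (h0 : ∀ (K : Subgroup G), K.FiniteIndex → ∀ (ψ : K →* (Set.Icc (0 : ℝ) 1 ≃o Set.Icc (0 : ℝ) 1)),
      ψ = 1) : Rigid.{u, w, z} G := by
  intro Λ _ K N hK hN e he
  refine ⟨?_, ?_⟩
  · intro X _ ψ
    exact ZUK.commens (h K hK X) N e he ψ
  · intro ψ hψ
    exact ZUK.cm_interval (fun ψ' => ZUK.commens (h0 K hK) N e he ψ') ψ hψ

theorem result :
    (∀ (G : Type u) (V : Type v) (I : Type s) [Group G] [MulAction G V] [Nonempty V] [Fintype I]
      (rel : I → V → V → Prop) (ε : I → I → ℝ), ChamberSystem G rel → PositiveDefinite ε →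
      (∀ i j, i ≠ j → (∀ c, (residue rel {i, j} c).Finite) ∧ ResidueAngle rel i j (ε i j)) →
      Rigid.{u, w, z} G) ∧
    (∀ (G : Type u) (I : Type s) [Group G] [Fintype I] (A : I → Subgroup G) (ε : I → I → ℝ),
      (∀ i, Finite (A i)) → ⨆ i, A i = ⊤ → PositiveDefinite ε →
      (∀ i j, i ≠ j → Finite (A i ⊔ A j : Subgroup G) ∧ SubgroupAngle (A i) (A j) (ε i j)) →
      Rigid.{u, w, z} G) ∧
    (∀ (G : Type u) (V : Type v) (I : Type s) (T : Type t) [Group G] [MulAction G V] [Nonempty V]
      [Fintype I] [Fintype T] (rel : I → V → V → Prop) (al : I → ℝ) (b : T → I → ℝ) (lam : T → ℝ),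
      ChamberSystem G rel → LocalData rel al b lam → Rigid.{u, w, z} G) := by
  refine ⟨?_, ?_, ?_⟩
  · intro G V I _ _ _ _ rel ε hX hε hang
    have hC : ANG.Ch G rel := ⟨hX.equivalence, hX.invariant, hX.finite_classes⟩
    exact rigid_of
      (fun K _ X _ ψ => ANG.pairs_main hC hX.finitely_many_orbits hX.finite_stabilizers
        hX.connected hε.symm hε.nonneg (fun i j c hij => (hang i j hij).1 c)
        (fun i j c hij => (hang i j hij).2 c) hε.pos K ψ)
      (fun K _ ψ => ANG.pairs_main hC hX.finitely_many_orbits hX.finite_stabilizers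
        hX.connected hε.symm hε.nonneg (fun i j c hij => (hang i j hij).1 c)
        (fun i j c hij => (hang i j hij).2 c) hε.pos K ψ)
  · intro G I _ _ A ε hfin htop hε hang
    exact rigid_of
      (fun K _ X _ ψ => ANG.group_main A hfin htop hε.symm hε.nonneg
        (fun i j hij => (hang i j hij).1) (fun i j hij => (hang i j hij).2) hε.pos K ψ)
      (fun K _ ψ => ANG.group_main A hfin htop hε.symm hε.nonneg
        (fun i j hij => (hang i j hij).1) (fun i j hij => (hang i j hij).2) hε.pos K ψ)
  · intro G V I T _ _ _ _ _ rel al b lam hX hD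
    have hC : ANG.Ch G rel := ⟨hX.equivalence, hX.invariant, hX.finite_classes⟩
    exact rigid_of
      (fun K _ X _ ψ => ANG.general_main hC hX.finitely_many_orbits hX.finite_stabilizers
        hX.connected hD.al_pos hD.b_nonneg hD.lam_pos hD.finite_residues hD.gap hD.cross
        hD.diag K ψ)
      (fun K _ ψ => ANG.general_main hC hX.finitely_many_orbits hX.finite_stabilizers
        hX.connected hD.al_pos hD.b_nonneg hD.lam_pos hD.finite_residues hD.gap hD.cross
        hD.diag K ψ)

end Pool.Agent.Results.MP_9d3768_al.AngleCriterion
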