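import Pool.Agent.ELN.Fin2

/-!
# Elementary and Steinberg groups do not act on the interval (MP_9d3768_al, Q1)

Let `R` be any associative ring with `1` and `n ≥ 3`. Let `G` be a group generated by elements
`x i j r` (`i ≠ j` in `{0, ..., n-1}`, `r ∈ R`) satisfying the Steinberg relations, that is, any
quotient of the Steinberg group `St_n(R)`, for instance the elementary group `E_n(R)`. Then every
action of every finite index subgroup of `G` on a linearly ordered set by order automorphisms is
trivial, and so is every homomorphism from it to `Homeo_+([0,1])`.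

The proof: Witte Morris' cyclic argument for six root elements with integral parameters, torsion-free
quotients, and the finiteness of the groups `St_n(A)` over finite rings `A`.
-/

set_option autoImplicit false

universe u v w

namespace Pool.Agent.Results.MP_9d3768_al.ElementaryGroups

open Pool.ELN

theorem result {R : Type v} [Ring R] {n : ℕ} (hn : 3 ≤ n) :
    (∀ (G : Type u) [Group G] (S : StSys (Fin n) R G), S.Gen →
      ∀ Δ : Subgroup G, Δ.FiniteIndex → ActsTrivially.{u, w} Δ) ∧
    (∀ Δ : Subgroup (elementaryGroup n R), Δ.FiniteIndex → ActsTrivially.{v, w} Δ) := by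
  constructor
  · intro G _ S h4 Δ hΔ
    exact ⟨fun _ _ φ => S.trivial_order hn h4 Δ φ,
      fun φ hφ => interval_of_order (fun ψ => S.trivial_order hn h4 Δ ψ) φ hφ⟩
  · intro Δ hΔ
    exact ⟨fun _ _ φ => (elSys n R).trivial_order hn elSys_gen Δ φ,
      fun φ hφ => interval_of_order
        (fun ψ => (elSys n R).trivial_order hn elSys_gen Δ ψ) φ hφ⟩

end Pool.Agent.Results.MP_9d3768_al.ElementaryGroups
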