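import Pool.Agent.FF4.Tra
import Pool.Agent.SPN.Fix
import Pool.Agent.SPN.Pgn
import Pool.Agent.ZUK.Cm

/-!
# Lattices in the rank one Lie groups with property (T) do not act on the interval (MP_9d3768_al, Q1)

By Kostant, the simple Lie groups of real rank one with property (T) are, up to local isomorphism,
`Sp(n,1)`, `n ≥ 2`, and `F_4^(-20)`. `RankOneKazhdan G` says that the topological group `G` is one of
them:

* `SPN.GG n` is the group `Sp(n,1)` of all quaternionic matrices `g` of size `n + 1` with
  `g* J g = J`, `J = diag(-1, 1, ..., 1)`, with the topology of the matrices;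
* `FF4.IsF4 a` says that `G` is the group `F_4^(-20)` in its 26-dimensional representation: `a` is an
  isomorphism of `G` to the group of all linear bijections of `FF4.EE = ℝ × ℝ^9 × ℝ^16` (the
  traceless part of the Jordan algebra) which preserve the quadratic form `FF4.Qf` and the cubic
  form `FF4.Cf`, and the topology of `G` is that of pointwise convergence, that is of the matrices.
  (`FF4.isF4_GG`: there is such a group.)

All lattices in these groups have property (T).

Part 1: every lattice in such a group `G`, uniform or not, arithmetic or not, acts trivially on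
every linearly ordered set and on the interval, and so does every group that is, up to finite
index, a quotient of a finite index subgroup of it (so the theorem also holds for the quotients of
`G` by its centre).

Part 2: the same for lattices in `G × H`, where the projection to `H` is dense and `H` is
generated by compact open subgroups (for example `S`-arithmetic groups, `H` a product of `p`-adic
groups).

The proof: for the order `x < y` of an orbit let `T(a; b, c)` be the integral over `a(dx) b(dy) c(dz)`
of `sg(x, y) sg(x, z)`; the form is invariant under `G` and satisfies a cyclic identity; a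
Matsushima type formula for this form gives an energy estimate for the kernels of a random walk with
bounded Laplacian, and the energy estimate contradicts the growth of the rank of the walk.
-/

set_option autoImplicit false

universe t u v w z

open MeasureTheory

namespace Pool.Agent.Results.MP_9d3768_al.RankOneLattices

/-- A lattice: a discrete subgroup with a fundamental domain of finite measure. -/
structure IsLattice {G : Type u} [Group G] [TopologicalSpace G] [MeasurableSpace G]
    (μ : Measure G) (Γ : Subgroup G) : Prop where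
  discrete : DiscreteTopology Γ
  finite_covolume : ∃ F : Set G, IsFundamentalDomain Γ F μ ∧ μ F < ⊤

/-- Every action of `Γ` on a linearly ordered set by order automorphisms is trivial, and every
homomorphism from `Γ` to the group of increasing homeomorphisms of `[0,1]` is trivial. -/
def ActsTrivially (Γ : Type z) [Group Γ] : Prop :=
  (∀ (X : Type w) [LinearOrder X] (ψ : Γ →* (X ≃o X)), ψ = 1) ∧
  (∀ ψ : Γ →* (Set.Icc (0 : ℝ) 1 ≃ₜ Set.Icc (0 : ℝ) 1), (∀ g, Monotone (ψ g)) → ψ = 1)

/-- Every group `Λ` having a finite index subgroup which is a quotient of a finite index subgroup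
of `G` acts trivially on linear orders and on the interval. -/
def Rigid (G : Type u) [Group G] : Prop :=
  ∀ (Λ : Type z) [Group Λ] (K : Subgroup G) (N : Subgroup Λ), K.FiniteIndex → N.FiniteIndex →
    ∀ e : K →* N, Function.Surjective e → ActsTrivially.{w, z} Λ

/-- The topological group `G` is one of the simple Lie groups of real rank one with property (T):
`Sp(n,1)` with `n ≥ 2`, or `F_4^(-20)`. -/
def RankOneKazhdan (G : Type t) [Group G] [TopologicalSpace G] : Prop :=
  (∃ (n : ℕ) (e : G ≃* SPN.GG n), 2 ≤ n ∧ Continuous e ∧ Continuous e.symm) ∨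
  (∃ a : G → FF4.EE → FF4.EE, FF4.IsF4 a)

/-- The statement for the lattices of one group `G`, with Haar measure `μ`: the lattices in `G`
are rigid; for a lattice `Γ` in `G × H` the elements with `H`-coordinate in a compact open subgroup
`U` of `H` form a rigid group; and if `Γ` projects densely to `H` and `H` is generated by its compact
open subgroups then `Γ` acts trivially, and is rigid if `H` has no proper open subgroup of finite
index. -/
def LatticesRigid (G : Type t) [Group G] [TopologicalSpace G] [MeasurableSpace G]
    (μ : Measure G) : Prop :=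
  (∀ Γ : Subgroup G, IsLattice μ Γ → Rigid.{t, w, z} Γ) ∧
  (∀ (H : Type u) [Group H] [TopologicalSpace H] [IsTopologicalGroup H]
    [T2Space H] [LocallyCompactSpace H] [SecondCountableTopology H] [MeasurableSpace H]
    [BorelSpace H] (ν : Measure H) [ν.IsHaarMeasure] (Γ : Subgroup (G × H)),
    IsLattice (μ.prod ν) Γ →
    (∀ U : Subgroup H, IsCompact (U : Set H) → IsOpen (U : Set H) →
      Rigid.{max t u, w, z} ↥(Γ ⊓ Subgroup.comap (MonoidHom.snd G H) U)) ∧
    (Dense {h : H | ∃ g ∈ Γ, g.2 = h} →
      Subgroup.closure {h : H | ∃ U : Subgroup H, IsCompact (U : Set H) ∧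
        IsOpen (U : Set H) ∧ h ∈ U} = ⊤ →
      ActsTrivially.{w, max t u} Γ ∧
      ((∀ V : Subgroup H, IsOpen (V : Set H) → V.FiniteIndex → V = ⊤) →
        Rigid.{max t u, w, z} Γ)))

theorem rigid_of {G : Type u} [Group G]
    (h : ∀ (K : Subgroup G), K.FiniteIndex → ∀ (X : Type w) [LinearOrder X] (ψ : K →* (X ≃o X)),
      ψ = 1)
    (h0 : ∀ (K : Subgroup G), K.FiniteIndex → ∀ (ψ : K →* (Set.Icc (0 : ℝ) 1 ≃o Set.Icc (0 : ℝ) 1)),
      ψ = 1) : Rigid.{u, w, z} G := by
  intro Λ _ K N hK hN e he
  refine ⟨?_, ?_⟩
  · intro X _ ψ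
    exact ZUK.commens (h K hK X) N e he ψ
  · intro ψ hψ
    exact ZUK.cm_interval (fun ψ' => ZUK.commens (h0 K hK) N e he ψ') ψ hψ

theorem latticesRigid_of {G : Type t} [Group G] [TopologicalSpace G] [IsTopologicalGroup G]
    [T2Space G] [LocallyCompactSpace G] [SecondCountableTopology G] [MeasurableSpace G]
    [BorelSpace G] (μ : Measure G) [μ.IsMulLeftInvariant] [SigmaFinite μ]
    (hw : ∀ (X : Type w) [LinearOrder X] (Γ : Subgroup G) (π : G → Γ), SPN.Dm μ Γ π →
      ∀ ψ : Γ →* (X ≃o X), ψ = 1)
    (h0 : ∀ (X : Type) [LinearOrder X] (Γ : Subgroup G) (π : G → Γ), SPN.Dm μ Γ π →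
      ∀ ψ : Γ →* (X ≃o X), ψ = 1) : LatticesRigid.{t, u, w, z} G μ := by
  refine ⟨?_, ?_⟩
  · intro Γ hΓ
    have := hΓ.discrete
    obtain ⟨F, hF, hfin⟩ := hΓ.finite_covolume
    obtain ⟨π, hD⟩ := SPN.exists_Dm Γ hF hfin
    exact rigid_of (fun K hK X _ ψ => SPN.lt_finiteIndex (hw X) hD K hK ψ)
      (fun K hK ψ => SPN.lt_finiteIndex (h0 _) hD K hK ψ)
  · intro H _ _ _ _ _ _ _ _ ν _ Γ hΓ
    have := hΓ.discrete
    obtain ⟨F, hF, hfin⟩ := hΓ.finite_covolume
    obtain ⟨π, hD⟩ := SPN.exists_Dm Γ hF hfin
    refine ⟨?_, ?_⟩
    · intro U hc ho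
      exact rigid_of (fun K hK X _ ψ => SPN.gu_lt (hw X) hD hc ho K hK ψ)
        (fun K hK ψ => SPN.gu_lt (h0 _) hD hc ho K hK ψ)
    · intro hd hgen
      refine ⟨⟨fun X _ ψ => SPN.prod_lt (hw X) hD hd hgen ψ, fun ψ hψ =>
        ZUK.cm_interval (fun ψ' => SPN.prod_lt (h0 _) hD hd hgen ψ') ψ hψ⟩, ?_⟩
      intro hfi
      exact rigid_of (fun K hK X _ ψ => SPN.prod_lt_finiteIndex (hw X) hD hd hgen hfi K hK ψ)
        (fun K hK ψ => SPN.prod_lt_finiteIndex (h0 _) hD hd hgen hfi K hK ψ)

/-- The lattices of the rank one Lie groups `G` with property (T), and those of `G × H`. -/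
theorem result (G : Type t) [Group G] [TopologicalSpace G] [MeasurableSpace G] [BorelSpace G]
    (hG : RankOneKazhdan G) (μ : Measure G) [μ.IsHaarMeasure] :
    LatticesRigid.{t, u, w, z} G μ := by
  obtain ⟨n, e, hn, he, he'⟩ | ⟨a, ha⟩ := hG
  · let f : G ≃ₜ SPN.GG n :=
      { toEquiv := e.toEquiv, continuous_toFun := he, continuous_invFun := he' }
    have : IsTopologicalGroup G := f.isInducing.topologicalGroup e
    have : T2Space G := f.isEmbedding.t2Space
    have : LocallyCompactSpace G := f.isClosedEmbedding.locallyCompactSpace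
    have : SecondCountableTopology G := f.secondCountableTopology
    exact latticesRigid_of μ
      (fun X _ Γ π hD ψ => FF4.trans_core e he he' μ (SPN.mu n)
        (fun _ _ hD' ψ' => SPN.spn_core hn hD' ψ') Γ π hD ψ)
      (fun X _ Γ π hD ψ => FF4.trans_core e he he' μ (SPN.mu n)
        (fun _ _ hD' ψ' => SPN.spn_core hn hD' ψ') Γ π hD ψ)
  · have := ha.isTopologicalGroup
    have := ha.t2Space
    have := ha.locallyCompactSpace
    have := ha.secondCountableTopology
    exact latticesRigid_of μ (fun X _ Γ π hD ψ => ha.main μ Γ π hD ψ)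
      (fun X _ Γ π hD ψ => ha.main μ Γ π hD ψ)

end Pool.Agent.Results.MP_9d3768_al.RankOneLattices
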