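import Pool.Agent.ZUK.Fi
import Pool.Agent.ZUK.Cm

/-!
# Żuk's spectral criterion excludes actions on the interval (MP_9d3768_al, Q1)

Let `G` act properly and cocompactly on a connected locally finite 2-dimensional complex all of
whose links have spectral gap `λ₁ > 1 / 2` (the classical local criterion for property (T)). Then
every action of `G` on a linearly ordered set, and every homomorphism from `G` to
`Homeo_+([0,1])`, is trivial; the same holds for all groups that are, up to finite index, quotients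
of finite index subgroups of `G`. Three further forms: partite complexes with an angle condition,
Żuk's graph `L(S)` of a finite symmetric generating set, and a general certificate.
-/

set_option autoImplicit false

universe u v w z

namespace Pool.Agent.Results.MP_9d3768_al.ZukCriterion

/-- A connected, locally finite complex of weighted triangles with vertex set `V` (`W u v w` is the
weight of the triangle `u v w`), and a proper action of `G` with finitely many orbits of
vertices. -/
structure TriangleComplex (G : Type u) {V : Type v} [Group G] [MulAction G V]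
    (W : V → V → V → ℝ) : Prop where
  nonneg : ∀ u v w, 0 ≤ W u v w
  symm_left : ∀ u v w, W u v w = W v u w
  symm_right : ∀ u v w, W u v w = W u w v
  invariant : ∀ (g : G) (u v w : V), W (g • u) (g • v) (g • w) = W u v w
  locally_finite : ∀ v, {q : V × V | W v q.1 q.2 ≠ 0}.Finite
  connected : ∀ v w, Relation.ReflTransGen (fun a b => ∃ c, W a b c ≠ 0) v w
  finitely_many_orbits : Finite (MulAction.orbitRel.Quotient G V)
  finite_stabilizers : ∀ v : V, Finite (MulAction.stabilizer G v)

/-- The link of `v` (the weighted graph in which `u w` is an edge of weight `W v u w`) has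
`lambda_1 ≥ lam`: for all functions `f` of mean zero for the degree weights,
`∑_{edges} W (f u - f w)^2 ≥ lam * ∑_u deg(u) (f u)^2`. The sums run over ordered pairs, so the
left hand side is counted twice. -/
def LinkGap {V : Type v} (W : V → V → V → ℝ) (v : V) (lam : ℝ) : Prop :=
  ∀ f : V → ℝ, ∑ᶠ q : V × V, W v q.1 q.2 * f q.1 = 0 →
    2 * lam * ∑ᶠ q : V × V, W v q.1 q.2 * f q.1 ^ 2 ≤
      ∑ᶠ q : V × V, W v q.1 q.2 * (f q.1 - f q.2) ^ 2

/-- `τ` is a `G`-invariant colouring of the vertices by three colours such that the three vertices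
of each triangle have different colours. -/
structure Colouring (G : Type u) {V : Type v} [Group G] [MulAction G V]
    (W : V → V → V → ℝ) (τ : V → Fin 3) : Prop where
  invariant : ∀ (g : G) (v : V), τ (g • v) = τ v
  proper : ∀ v x y, W v x y ≠ 0 → τ x ≠ τ v ∧ τ y ≠ τ v ∧ τ x ≠ τ y

/-- The (bipartite) link of `v` has angle at least `arccos ε`: for all functions `f` on the link of
mean zero on each of the two colour classes, `∑ W f(x) f(y) ≤ ε * ∑ W f(x)^2`
(sums over the ordered pairs `x, y` of adjacent vertices of the link). -/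
def LinkAngle {V : Type v} (W : V → V → V → ℝ) (τ : V → Fin 3) (v : V) (ε : ℝ) : Prop :=
  ∀ f : V → ℝ, (∀ i, ∑ᶠ q : V × V, W v q.1 q.2 * (if τ q.1 = i then f q.1 else 0) = 0) →
    ∑ᶠ q : V × V, W v q.1 q.2 * (f q.1 * f q.2) ≤ ε * ∑ᶠ q : V × V, W v q.1 q.2 * f q.1 ^ 2

open Classical in
/-- `S` is a finite symmetric generating set of `G`, and Żuk's graph `L(S)` (vertex set `S`, an edge
from `s` to `s'` if `s⁻¹ s' ∈ S`) has no isolated vertices and `lambda_1 ≥ lam`. -/
structure ZukGraph {G : Type u} [Group G] (S : Finset G) (lam : ℝ) : Prop where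
  symm : ∀ s ∈ S, s⁻¹ ∈ S
  generates : Subgroup.closure (S : Set G) = ⊤
  no_isolated : ∀ s ∈ S, ∃ s' ∈ S, s⁻¹ * s' ∈ S
  gap : ∀ f : G → ℝ, (∑ s ∈ S, ∑ s' ∈ S, if s⁻¹ * s' ∈ S then f s else 0) = 0 →
    2 * lam * (∑ s ∈ S, ∑ s' ∈ S, if s⁻¹ * s' ∈ S then f s ^ 2 else 0) ≤
      ∑ s ∈ S, ∑ s' ∈ S, if s⁻¹ * s' ∈ S then (f s - f s') ^ 2 else 0

/-- A certificate: a proper cocompact action of `G` on a connected locally finite weighted graph
`w` on `V`, and an invariant, locally finite, totally symmetric tensor `φ` with vanishing marginals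
such that at each vertex `v` the energy is at most a constant times the square of the Laplacian plus
the quadratic form `φ v · ·`. -/
structure Certificate (G : Type u) {V : Type v} [Group G] [MulAction G V] (w : V → V → ℝ)
    (φ : V → V → V → ℝ) (κ C : ℝ) : Prop where
  nonneg : ∀ u v, 0 ≤ w u v
  symm : ∀ u v, w u v = w v u
  invariant : ∀ (g : G) (u v : V), w (g • u) (g • v) = w u v
  locally_finite : ∀ v, {u | w v u ≠ 0}.Finite
  connected : ∀ v u, Relation.ReflTransGen (fun a b => w a b ≠ 0) v u
  finitely_many_orbits : Finite (MulAction.orbitRel.Quotient G V)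
  finite_stabilizers : ∀ v : V, Finite (MulAction.stabilizer G v)
  tensor_symm_left : ∀ v x y, φ v x y = φ x v y
  tensor_symm_right : ∀ v x y, φ v x y = φ v y x
  tensor_invariant : ∀ (g : G) (v x y : V), φ (g • v) (g • x) (g • y) = φ v x y
  tensor_locally_finite : ∀ v, {q : V × V | φ v q.1 q.2 ≠ 0}.Finite
  tensor_marginals : ∀ v x, ∑ᶠ y, φ v x y = 0
  pos : 0 < κ
  dominates : ∀ (v : V) (f : V → ℝ), κ * ∑ᶠ u, w v u * (f u - f v) ^ 2 ≤
    C * (∑ᶠ u, w v u * (f u - f v)) ^ 2 + ∑ᶠ q : V × V, φ v q.1 q.2 * (f q.1 * f q.2)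

/-- Every action of `Γ` on a linearly ordered set by order automorphisms is trivial, and every
homomorphism from `Γ` to the group of increasing homeomorphisms of `[0,1]` is trivial. -/
def ActsTrivially (Γ : Type z) [Group Γ] : Prop :=
  (∀ (X : Type w) [LinearOrder X] (ψ : Γ →* (X ≃o X)), ψ = 1) ∧
  (∀ ψ : Γ →* (Set.Icc (0 : ℝ) 1 ≃ₜ Set.Icc (0 : ℝ) 1), (∀ g, Monotone (ψ g)) → ψ = 1)

/-- Every group `Λ` having a finite index subgroup which is a quotient of a finite index subgroup
of `G` acts trivially on linear orders and on the interval. -/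
def Rigid (G : Type u) [Group G] : Prop :=
  ∀ (Λ : Type z) [Group Λ] (K : Subgroup G) (N : Subgroup Λ), K.FiniteIndex → N.FiniteIndex →
    ∀ e : K →* N, Function.Surjective e → ActsTrivially.{w, z} Λ

theorem rigid_of {G : Type u} [Group G]
    (h : ∀ (K : Subgroup G), K.FiniteIndex → ∀ (X : Type w) [LinearOrder X] (ψ : K →* (X ≃o X)),
      ψ = 1)
    (h0 : ∀ (K : Subgroup G), K.FiniteIndex → ∀ (ψ : K →* (Set.Icc (0 : ℝ) 1 ≃o Set.Icc (0 : ℝ) 1)),
      ψ = 1) : Rigid.{u, w, z} G := by
  intro Λ _ K N hK hN e he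
  refine ⟨?_, ?_⟩
  · intro X _ ψ
    exact ZUK.commens (h K hK X) N e he ψ
  · intro ψ hψ
    exact ZUK.cm_interval (fun ψ' => ZUK.commens (h0 K hK) N e he ψ') ψ hψ

theorem result :
    (∀ (G : Type u) (V : Type v) [Group G] [MulAction G V] [Nonempty V] (W : V → V → V → ℝ)
      (lam : ℝ), TriangleComplex G W → 1 / 2 < lam → (∀ v, LinkGap W v lam) → Rigid.{u, w, z} G) ∧
    (∀ (G : Type u) (V : Type v) [Group G] [MulAction G V] [Nonempty V] (W : V → V → V → ℝ)
      (τ : V → Fin 3) (ε : Fin 3 → ℝ), TriangleComplex G W → Colouring G W τ → (∀ i, 0 ≤ ε i) →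
      (∀ v, LinkAngle W τ v (ε (τ v))) →
      ε 0 ^ 2 + ε 1 ^ 2 + ε 2 ^ 2 + 2 * ε 0 * ε 1 * ε 2 < 1 → Rigid.{u, w, z} G) ∧
    (∀ (G : Type u) [Group G] (S : Finset G) (lam : ℝ), 1 / 2 < lam → ZukGraph S lam →
      Rigid.{u, w, z} G) ∧
    (∀ (G : Type u) (V : Type v) [Group G] [MulAction G V] [Nonempty V] (w : V → V → ℝ)
      (φ : V → V → V → ℝ) (κ C : ℝ), Certificate G w φ κ C → Rigid.{u, w, z} G) := by
  refine ⟨?_, ?_, ?_, ?_⟩
  · intro G V _ _ _ W lam hX hlam hgap
    have hW : LGap.Cx G W := ⟨hX.nonneg, hX.symm_left, hX.symm_right, hX.invariant,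
      hX.locally_finite⟩
    exact rigid_of
      (fun K _ X _ ψ => ZUK.gap_trivial hW hX.finitely_many_orbits hX.finite_stabilizers
        hX.connected hlam hgap K ψ)
      (fun K _ ψ => ZUK.gap_trivial hW hX.finitely_many_orbits hX.finite_stabilizers
        hX.connected hlam hgap K ψ)
  · intro G V _ _ _ W τ ε hX hτ hε hang hsum
    have hW : LGap.Cx G W := ⟨hX.nonneg, hX.symm_left, hX.symm_right, hX.invariant,
      hX.locally_finite⟩
    exact rigid_of
      (fun K _ X _ ψ => ZUK.angle_trivial hW hX.finitely_many_orbits hX.finite_stabilizers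
        hX.connected τ hτ.invariant hτ.proper hε hsum hang K ψ)
      (fun K _ ψ => ZUK.angle_trivial hW hX.finitely_many_orbits hX.finite_stabilizers
        hX.connected τ hτ.invariant hτ.proper hε hsum hang K ψ)
  · intro G _ S lam hlam hS
    exact rigid_of
      (fun K _ X _ ψ => ZUK.zuk_trivial S hS.symm hS.generates hS.no_isolated hlam hS.gap K ψ)
      (fun K _ ψ => ZUK.zuk_trivial S hS.symm hS.generates hS.no_isolated hlam hS.gap K ψ)
  · intro G V _ _ _ w φ κ C hC
    have hw : ZUK.Gr G w := ⟨hC.nonneg, hC.symm, hC.invariant, hC.locally_finite⟩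
    have hφ : ZUK.Tn G φ := ⟨hC.tensor_symm_left, hC.tensor_symm_right, hC.tensor_invariant,
      hC.tensor_locally_finite⟩
    have hct : ZUK.Ct hw hφ κ (max C 0) := by
      refine ⟨hC.pos, le_max_right _ _, hC.tensor_marginals, ?_⟩
      intro v f
      have h1 := hC.dominates v f
      rw [ZUK.sum_nb hw v (fun u => (f u - f v) ^ 2), ZUK.sum_nb hw v (fun u => f u - f v)]
      have h2 : ∑ q ∈ ZUK.pq hφ v, φ v q.1 q.2 * (f q.1 * f q.2)
          = ∑ᶠ q : V × V, φ v q.1 q.2 * (f q.1 * f q.2) := by
        symm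
        apply finsum_eq_sum_of_support_subset
        intro q hq
        simp only [Function.mem_support, ne_eq, mul_eq_zero, not_or] at hq
        exact (ZUK.mem_pq hφ).2 hq.1
      rw [h2]
      have h3 : C * (∑ᶠ u, w v u * (f u - f v)) ^ 2
          ≤ max C 0 * (∑ᶠ u, w v u * (f u - f v)) ^ 2 :=
        mul_le_mul_of_nonneg_right (le_max_left _ _) (sq_nonneg _)
      linarith
    exact rigid_of
      (fun K _ X _ ψ => ZUK.order_trivial hw hφ hC.finitely_many_orbits hC.finite_stabilizers
        hC.connected (fun _ => ⟨κ, _, hct⟩) K ψ)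
      (fun K _ ψ => ZUK.order_trivial hw hφ hC.finitely_many_orbits hC.finite_stabilizers
        hC.connected (fun _ => ⟨κ, _, hct⟩) K ψ)

end Pool.Agent.Results.MP_9d3768_al.ZukCriterion
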